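import Mathlib

/-! Closed fibre linear algebra for the E_8 case of the licci question (codimension 6, 8
generators).  `no_closed_fibre`: there is no closed fibre with ranks 12 | 80 | 12. -/

namespace Pool.Agent.Licci.Six

open Module

universe u

section Involutions

variable {k : Type*} [Field k]

/-- One halving step: `J` an involution and `S` invertible with `S J = - J S`. -/
theorem halving [CharZero k] (V : Type u) [AddCommGroup V] [Module k V] [FiniteDimensional k V]
    (J S : End k V) (hJ : J * J = 1) (hS : Function.Injective S) (hSJ : S * J = -(J * S)) :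
    finrank k V = 2 * finrank k (LinearMap.ker (J - 1)) := by
  set P : Submodule k V := LinearMap.ker (J - 1) with hP
  set M : Submodule k V := LinearMap.ker (J + 1) with hM
  have memP : ∀ v, v ∈ P ↔ J v = v := by
    intro v; rw [hP, LinearMap.mem_ker, LinearMap.sub_apply, Module.End.one_apply, sub_eq_zero]
  have memM : ∀ v, v ∈ M ↔ J v = -v := by
    intro v
    rw [hM, LinearMap.mem_ker, LinearMap.add_apply, Module.End.one_apply, add_eq_zero_iff_eq_neg]
  have hJJ : ∀ v, J (J v) = v := by
    intro v
    have := congrArg (fun f : End k V => f v) hJ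
    simpa using this
  have hcompl : IsCompl P M := by
    refine IsCompl.of_eq ?_ ?_
    · rw [Submodule.eq_bot_iff]
      intro v hv
      have h1 := (memP v).1 hv.1
      have h2 := (memM v).1 hv.2
      rw [h1] at h2
      have h3 : (2 : k) • v = 0 := by
        rw [two_smul]
        nth_rewrite 1 [h2]
        simp
      rcases smul_eq_zero.1 h3 with h | h
      · exact absurd h two_ne_zero
      · exact h
    · rw [Submodule.eq_top_iff']
      intro v
      rw [Submodule.mem_sup]
      refine ⟨(2 : k)⁻¹ • (v + J v), (memP _).2 ?_, (2 : k)⁻¹ • (v - J v), (memM _).2 ?_, ?_⟩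
      · rw [map_smul, map_add, hJJ, add_comm]
      · rw [map_smul, map_sub, hJJ, ← smul_neg, neg_sub]
      · rw [← smul_add]
        have : v + J v + (v - J v) = (2 : k) • v := by rw [two_smul]; abel
        rw [this, smul_smul, inv_mul_cancel₀ two_ne_zero, one_smul]
  have hSP : ∀ v, v ∈ P → S v ∈ M := by
    intro v hv
    rw [memM]
    have h := congrArg (fun f : End k V => f v) hSJ
    simp only [Module.End.mul_apply, LinearMap.neg_apply] at h
    rw [(memP v).1 hv] at h
    exact neg_eq_iff_eq_neg.1 h.symm
  have hSM : ∀ v, v ∈ M → S v ∈ P := by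
    intro v hv
    rw [memP]
    have h := congrArg (fun f : End k V => f v) hSJ
    simp only [Module.End.mul_apply, LinearMap.neg_apply] at h
    rw [(memM v).1 hv, map_neg] at h
    exact (neg_inj.1 h).symm
  have h1 : finrank k P ≤ finrank k M :=
    LinearMap.finrank_le_finrank_of_injective (f := S.restrict hSP)
      (fun x y hxy => Subtype.ext (hS (congrArg Subtype.val hxy)))
  have h2 : finrank k M ≤ finrank k P :=
    LinearMap.finrank_le_finrank_of_injective (f := S.restrict hSM)
      (fun x y hxy => Subtype.ext (hS (congrArg Subtype.val hxy)))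
  have h3 := Submodule.finrank_add_eq_of_isCompl hcompl
  omega

/-- `2 n` anticommuting operators with nonzero scalar squares force `2 ^ n` to divide the
dimension (algebraically closed field). -/
theorem two_pow_dvd_closed [CharZero k] [IsAlgClosed k] : ∀ (n : ℕ) (V : Type u)
    [AddCommGroup V] [Module k V] [FiniteDimensional k V] (S : Fin (2 * n) → End k V)
    (a : Fin (2 * n) → k), (∀ i, a i ≠ 0) → (∀ i, S i * S i = a i • (1 : End k V)) →
    (∀ i j, i ≠ j → S i * S j = -(S j * S i)) → 2 ^ n ∣ finrank k V
  | 0, V, _, _, _, S, a, _, _, _ => by simp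
  | n + 1, V, _, _, _, S, a, ha, hsq, hanti => by
    obtain ⟨r, hr⟩ := IsAlgClosed.exists_pow_nat_eq (-(a 0 * a 1)) (n := 2) (by norm_num)
    have hr0 : r ≠ 0 := by
      intro h
      rw [h] at hr
      have : a 0 * a 1 = 0 := by
        have h2 : (0 : k) ^ 2 = 0 := by norm_num
        rw [h2] at hr
        linear_combination hr
      exact (mul_ne_zero (ha 0) (ha 1)) this
    have h01 : (0 : Fin (2 * (n + 1))) ≠ 1 := by
      intro h
      have := congrArg Fin.val h
      simp at this
    set J : End k V := r⁻¹ • (S 0 * S 1) with hJdef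
    have hJ : J * J = 1 := by
      have e1 : S 0 * S 1 * (S 0 * S 1) = -((a 0 * a 1) • (1 : End k V)) := by
        have : S 0 * S 1 * (S 0 * S 1) = S 0 * (S 1 * S 0) * S 1 := by noncomm_ring
        rw [this, hanti 1 0 (Ne.symm h01)]
        have : S 0 * -(S 0 * S 1) * S 1 = -((S 0 * S 0) * (S 1 * S 1)) := by noncomm_ring
        rw [this, hsq, hsq, smul_mul_smul_comm, one_mul]
      rw [hJdef, smul_mul_smul_comm, e1, ← neg_smul, smul_smul, ← hr]
      have : r⁻¹ * r⁻¹ * r ^ 2 = 1 := by field_simp
      rw [this, one_smul]
    have hSinj : Function.Injective (S 0) := by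
      intro x y hxy
      have := congrArg (S 0) hxy
      have e : ∀ z, S 0 (S 0 z) = a 0 • z := by
        intro z
        have := congrArg (fun f : End k V => f z) (hsq 0)
        simpa using this
      rw [e, e] at this
      exact smul_right_injective V (ha 0) this
    have hSJ : S 0 * J = -(J * S 0) := by
      rw [hJdef, mul_smul_comm, smul_mul_assoc, ← smul_neg]
      congr 1
      have : S 0 * S 1 * S 0 = S 0 * (S 1 * S 0) := by noncomm_ring
      rw [this, hanti 1 0 (Ne.symm h01)]
      noncomm_ring
    have hhalf := halving V J (S 0) hJ hSinj hSJ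
    set P : Submodule k V := LinearMap.ker (J - 1) with hP
    have hcomm : ∀ i : Fin (2 * n), S i.succ.succ * J = J * S i.succ.succ := by
      intro i
      have hi0 : (i.succ.succ : Fin (2 * n + 2)) ≠ 0 := Fin.succ_ne_zero _
      have hi1 : (i.succ.succ : Fin (2 * n + 2)) ≠ 1 := by
        intro h
        have := congrArg Fin.val h
        simp at this
      rw [hJdef, mul_smul_comm, smul_mul_assoc]
      congr 1
      have e1 := hanti i.succ.succ 0 hi0
      have e2 := hanti i.succ.succ 1 hi1
      calc S i.succ.succ * (S 0 * S 1) = (S i.succ.succ * S 0) * S 1 := by noncomm_ring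
        _ = -(S 0 * (S i.succ.succ * S 1)) := by rw [e1]; noncomm_ring
        _ = S 0 * S 1 * S i.succ.succ := by rw [e2]; noncomm_ring
    have hmap : ∀ i : Fin (2 * n), ∀ v ∈ P, S i.succ.succ v ∈ P := by
      intro i v hv
      rw [hP, LinearMap.mem_ker, LinearMap.sub_apply, Module.End.one_apply, sub_eq_zero] at hv ⊢
      have := congrArg (fun f : End k V => f v) (hcomm i)
      simp only [Module.End.mul_apply] at this
      rw [← this, hv]
    have ih := two_pow_dvd_closed n P (fun i => (S i.succ.succ).restrict (hmap i))
      (fun i => a i.succ.succ) (fun i => ha _)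
      (fun i => by
        ext v
        have := congrArg (fun f : End k V => f v) (hsq i.succ.succ)
        simpa using this)
      (fun i j hij => by
        ext v
        have hne : (i.succ.succ : Fin (2 * n + 2)) ≠ j.succ.succ := by
          intro h
          exact hij (Fin.succ_injective _ (Fin.succ_injective _ h))
        have := congrArg (fun f : End k V => f v) (hanti i.succ.succ j.succ.succ hne)
        simpa using this)
    rw [hhalf, pow_succ, mul_comm]
    exact Nat.mul_dvd_mul_left 2 ih

/-- The same over any field of characteristic zero. -/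
theorem two_pow_dvd [CharZero k] (n : ℕ) (V : Type u)
    [AddCommGroup V] [Module k V] [FiniteDimensional k V] (S : Fin (2 * n) → End k V)
    (a : Fin (2 * n) → k) (ha : ∀ i, a i ≠ 0) (hsq : ∀ i, S i * S i = a i • (1 : End k V))
    (hanti : ∀ i j, i ≠ j → S i * S j = -(S j * S i)) : 2 ^ n ∣ finrank k V := by
  let K := AlgebraicClosure k
  have : CharZero K := charZero_of_injective_algebraMap (algebraMap k K).injective
  have hd := two_pow_dvd_closed (k := K) n (TensorProduct k K V)
    (fun i => (S i).baseChange K) (fun i => algebraMap k K (a i))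
    (fun i => by
      intro h
      exact ha i ((map_eq_zero _).1 h))
    (fun i => by
      have h := congrArg (LinearMap.baseChange K) (hsq i)
      rw [LinearMap.baseChange_mul] at h
      rw [h, LinearMap.baseChange_smul]
      ext v
      simp [Algebra.smul_def, TensorProduct.smul_tmul'])
    (fun i j hij => by
      have h := congrArg (LinearMap.baseChange K) (hanti i j hij)
      rw [LinearMap.baseChange_mul, LinearMap.baseChange_neg, LinearMap.baseChange_mul] at h
      exact h)
  rwa [Module.finrank_baseChange] at hd

end Involutions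

section Main

variable {k : Type*} [Field k] [CharZero k]
variable {B C : Type*} [AddCommGroup B] [Module k B] [FiniteDimensional k B]
  [AddCommGroup C] [Module k C] [FiniteDimensional k C]

/-- `sc om T s`: the operator `T` is `s` plus an element of the symplectic Lie algebra. -/
def sc (om : B →ₗ[k] B →ₗ[k] k) (T : End k B) (s : k) : Prop :=
  ∀ b b', om (T b) b' + om b (T b') = 2 * s * om b b'

/-- The operators `L (c, g) = g c / 12 + Lam (c, g)`. -/
noncomputable def Lop (Lam : C →ₗ[k] Dual k C →ₗ[k] End k B) (c : C) (g : Dual k C) : End k B :=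
  (g c / 12) • (1 : End k B) + Lam c g

variable {om : B →ₗ[k] B →ₗ[k] k} {Lam : C →ₗ[k] Dual k C →ₗ[k] End k B}

theorem sc_unique (hnd : ∀ x, (∀ y, om x y = 0) → x = 0) [Nontrivial B]
    {T : End k B} {s s' : k} (h : sc om T s) (h' : sc om T s') : s = s' := by
  obtain ⟨x, hx⟩ := exists_ne (0 : B)
  have : ∃ y, om x y ≠ 0 := by
    by_contra hcon
    push Not at hcon
    exact hx (hnd x hcon)
  obtain ⟨y, hy⟩ := this
  have e := (h x y).symm.trans (h' x y)
  have e2 := mul_right_cancel₀ hy e
  exact mul_left_cancel₀ two_ne_zero e2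

theorem sc_Lop (hanti : ∀ x y, om x y = -om y x)
    (sym : ∀ c g b b', om (Lam c g b) b' = om (Lam c g b') b) (c : C) (g : Dual k C) :
    sc om (Lop Lam c g) (g c / 12) := by
  intro b b'
  simp only [Lop, LinearMap.add_apply, LinearMap.smul_apply, Module.End.one_apply, map_add,
    map_smul, smul_eq_mul]
  have h1 := sym c g b b'
  have h2 := hanti b (Lam c g b')
  rw [h2, ← h1]
  ring

/-- If `T' T = 1` with `T, T'` in `k + sp`, and the scalar part `s` of `T` is nonzero, then
`(T - s) ^ 2` is a scalar. -/
theorem square_scalar (hnd : ∀ x, (∀ y, om x y = 0) → x = 0) (hanti : ∀ x y, om x y = -om y x)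
    [Nontrivial B]
    {T T' : End k B} {s s' : k} (h : sc om T s) (h' : sc om T' s') (hTT : T' * T = 1)
    (hs : s ≠ 0) : ∃ q : k, (T - s • 1) * (T - s • 1) = q • (1 : End k B) := by
  have hTT' : T * T' = 1 := mul_eq_one_comm.1 hTT
  -- adjoint relation: (2 s - T) (2 s' - T') = 1
  have hadj : ((2 * s) • (1 : End k B) - T) * ((2 * s') • (1 : End k B) - T') = 1 := by
    have key : ∀ x y, om (T' (T x)) y =
        om x (((2 * s) • (1 : End k B) - T) (((2 * s') • (1 : End k B) - T') y)) := by
      intro x y
      have e1 := h' (T x) y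
      have e2 := h x (((2 * s') • (1 : End k B) - T') y)
      simp only [LinearMap.sub_apply, LinearMap.smul_apply, Module.End.one_apply, map_sub,
        map_smul, smul_eq_mul] at e1 e2 ⊢
      linear_combination e1 + e2
    apply LinearMap.ext
    intro y
    rw [← sub_eq_zero]
    apply hnd
    intro x
    have e := key x y
    have e0 : T' (T x) = x := by
      have := congrArg (fun f : End k B => f x) hTT
      simpa using this
    rw [e0] at e
    rw [hanti, map_sub, Module.End.mul_apply, Module.End.one_apply, ← e, sub_self, neg_zero]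
  have hexp : s • T' = (2 * s * s') • (1 : End k B) - s' • T := by
    have e : ((2 * s) • (1 : End k B) - T) * ((2 * s') • (1 : End k B) - T') =
        (4 * s * s') • (1 : End k B) - (2 * s) • T' - (2 * s') • T + T * T' := by
      rw [sub_mul, mul_sub, mul_sub, smul_mul_smul_comm, one_mul, smul_one_mul, mul_smul_one]
      have : 2 * s * (2 * s') = 4 * s * s' := by ring
      rw [this]
      abel
    rw [e, hTT'] at hadj
    have e2 : (4 * s * s') • (1 : End k B) - (2 * s) • T' - (2 * s') • T = 0 := by
      have := hadj
      rwa [add_eq_right] at this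
    have e3 : (2 : k) • (s • T') = (2 : k) • ((2 * s * s') • (1 : End k B) - s' • T) := by
      rw [smul_sub, smul_smul, smul_smul, smul_smul]
      have : (2 : k) * (2 * s * s') = 4 * s * s' := by ring
      rw [this]
      rw [sub_sub, sub_eq_zero] at e2
      rw [e2]
      abel
    exact smul_right_injective _ (two_ne_zero (α := k)) e3
  -- multiply by T on the right
  have hmul : s • (1 : End k B) = s' • (((2 * s) • (1 : End k B) - T) * T) := by
    have e : s • T' * T = ((2 * s * s') • (1 : End k B) - s' • T) * T := by rw [hexp]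
    rw [smul_mul_assoc, hTT, sub_mul, smul_one_mul, smul_mul_assoc] at e
    rw [e, sub_mul, smul_sub, smul_one_mul, smul_smul]
    have : 2 * s * s' = s' * (2 * s) := by ring
    rw [this]
  have hs' : s' ≠ 0 := by
    intro h0
    rw [h0, zero_smul] at hmul
    rcases smul_eq_zero.1 hmul with h | h
    · exact hs h
    · exact one_ne_zero h
  refine ⟨s ^ 2 - s / s', ?_⟩
  have e4 : ((2 * s) • (1 : End k B) - T) * T = (s / s') • (1 : End k B) := by
    have e := congrArg (fun f => s'⁻¹ • f) hmul
    simp only [smul_smul, inv_mul_cancel₀ hs', one_smul] at e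
    rw [← e]
    congr 1
    ring
  rw [sub_mul, smul_one_mul] at e4
  rw [sub_mul, mul_sub, mul_sub, mul_smul_one, smul_one_mul, smul_mul_smul_comm, one_mul,
    sub_smul, ← e4]
  have : (2 * s) • T = s • T + s • T := by rw [two_mul, add_smul]
  rw [this, pow_two]
  abel

/-- Clifford structure on the orthogonal complement of a vector in a nondegenerate space. -/
theorem clifford_end (hC : finrank k C = 12) (N : LinearMap.BilinForm k C) (hNs : N.IsSymm)
    (hNn : N.Nondegenerate) (x1 : C) (hx : N x1 x1 ≠ 0) (S : C → End k B)
    (hS : ∀ c c', N x1 c = 0 → N x1 c' = 0 →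
      S c * S c' + S c' * S c = (-(2 * N c c')) • (1 : End k B)) : 32 ∣ finrank k B := by
  classical
  set H : Submodule k C := N.orthogonal (k ∙ x1) with hH
  have hmem : ∀ c, c ∈ H → N x1 c = 0 := by
    intro c hc
    exact hc x1 (Submodule.mem_span_singleton_self x1)
  have hfr : finrank k H = 11 := by
    have h1 := Submodule.finrank_add_eq_of_isCompl
      (LinearMap.BilinForm.isCompl_span_singleton_orthogonal hx)
    have hx0 : x1 ≠ 0 := by
      rintro rfl
      exact hx (by simp)
    rw [finrank_span_singleton hx0, hC] at h1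
    have h2 : 1 + finrank k H = 12 := h1
    omega
  have hnd := LinearMap.BilinForm.restrict_nondegenerate_orthogonal_spanSingleton N hNn
    hNs.isRefl hx
  have : Invertible (2 : k) := invertibleOfNonzero two_ne_zero
  obtain ⟨v0, hv0⟩ := LinearMap.BilinForm.exists_orthogonal_basis
    (B := N.restrict H) ⟨fun x y => hNs.eq (x : C) (y : C)⟩
  let e : Fin (finrank k H) ≃ Fin 11 := finCongr hfr
  have hvo : ∀ i j, i ≠ j → N (v0 i : C) (v0 j : C) = 0 := fun i j hij => hv0 hij
  have hvn : ∀ i, N (v0 i : C) (v0 i : C) ≠ 0 := fun i =>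
    LinearMap.BilinForm.iIsOrtho.not_isOrtho_basis_self_of_nondegenerate hv0 hnd i
  let w : Fin (2 * 5) → C := fun i => (v0 (e.symm (Fin.castLE (by norm_num) i)) : C)
  have hinj : ∀ i j : Fin (2 * 5), i ≠ j →
      e.symm (Fin.castLE (by norm_num) i) ≠ e.symm (Fin.castLE (by norm_num) j) := by
    intro i j hij h
    have h2 := e.symm.injective h
    exact hij (Fin.castLE_injective _ h2)
  have hwH : ∀ i, N x1 (w i) = 0 := fun i => hmem _ (v0 _).2
  have h := two_pow_dvd 5 B (fun i => S (w i)) (fun i => -(N (w i) (w i)))
    (fun i => neg_ne_zero.2 (hvn _))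
    (fun i => by
      have h1 := hS (w i) (w i) (hwH i) (hwH i)
      have h2 : (2 : k) • (S (w i) * S (w i)) = (2 : k) • ((-(N (w i) (w i))) • (1 : End k B)) := by
        rw [two_smul, h1, smul_smul]
        congr 1
        ring
      exact smul_right_injective _ (two_ne_zero (α := k)) h2)
    (fun i j hij => by
      have h1 := hS (w i) (w j) (hwH i) (hwH j)
      have h2 : N (w i) (w j) = 0 := hvo _ _ (hinj i j hij)
      rw [h2, mul_zero, neg_zero, zero_smul] at h1
      exact eq_neg_of_add_eq_zero_left h1)
  simpa using h

/-- **The closed fibre with ranks `12 | 80 | 12` does not exist.** -/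
theorem no_closed_fibre (hB : finrank k B = 80) (hC : finrank k C = 12)
    (om : B →ₗ[k] B →ₗ[k] k) (halt : ∀ x, om x x = 0)
    (hnd : ∀ x, (∀ y, om x y = 0) → x = 0)
    (Lam : C →ₗ[k] Dual k C →ₗ[k] End k B)
    (sym : ∀ c g b b', om (Lam c g b) b' = om (Lam c g b') b)
    (Om : Set C) (x1 : C) (hx1 : x1 ∈ Om)
    (hopen : ∀ c : C, {t : k | x1 + t • c ∉ Om}.Finite)
    (hR : ∀ x ∈ Om, ∀ c : C, ∃ R : End k B, ∀ g : Dual k C, Lop Lam c g = Lop Lam x g * R)
    (hg : ∀ x ∈ Om, ∃ g : Dual k C, g x = 12 ∧ Lam x g = 0) : False := by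
  have hanti : ∀ x y, om x y = -om y x := by
    intro x y
    have h := halt (x + y)
    simp only [map_add, LinearMap.add_apply, halt, zero_add, add_zero] at h
    exact eq_neg_of_add_eq_zero_right h
  have : Nontrivial B := Module.nontrivial_of_finrank_pos (R := k) (by rw [hB]; norm_num)
  choose! gx hgx1 hgx2 using hg
  -- basic factorisation
  have hL1 : ∀ x ∈ Om, Lop Lam x (gx x) = 1 := by
    intro x hx
    rw [Lop, hgx1 x hx, hgx2 x hx, add_zero]
    norm_num
  have hfac : ∀ x ∈ Om, ∀ c g, Lop Lam c g = Lop Lam x g * Lop Lam c (gx x) := by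
    intro x hx c g
    obtain ⟨R, hRR⟩ := hR x hx c
    have h := hRR (gx x)
    rw [hL1 x hx, one_mul] at h
    rw [h]
    exact hRR g
  set g1 := gx x1 with hg1
  have hg1x : g1 x1 = 12 := hgx1 x1 hx1
  have hLam1 : Lam x1 g1 = 0 := hgx2 x1 hx1
  set S : C → End k B := fun c => Lam c g1 with hS
  have hSadd : ∀ c c', S (c + c') = S c + S c' := by
    intro c c'; simp [hS]
  have hSsmul : ∀ (t : k) c, S (t • c) = t • S c := by
    intro t c; simp [hS]
  -- good parameters on a line
  have hgood : ∀ c (F : Finset k), ∃ t : k, t ∉ F ∧ x1 + t • c ∈ Om := by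
    intro c F
    have hfin : ({t : k | x1 + t • c ∉ Om} ∪ (F : Set k)).Finite := (hopen c).union F.finite_toSet
    obtain ⟨t, ht⟩ := hfin.infinite_compl.nonempty
    simp only [Set.compl_union, Set.mem_inter_iff, Set.mem_compl_iff, Set.mem_ofPred_eq,
      not_not, Finset.mem_coe] at ht
    exact ⟨t, ht.2, ht.1⟩
  -- squares are scalars
  have hsq : ∀ c, ∃ q : k, S c * S c = q • (1 : End k B) := by
    intro c
    classical
    obtain ⟨t, htF, htO⟩ := hgood c {0, -12 / g1 c}
    simp only [Finset.mem_insert, Finset.mem_singleton, not_or] at htF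
    obtain ⟨ht0, ht1⟩ := htF
    set y := x1 + t • c with hy
    have hs : g1 y / 12 ≠ 0 := by
      rw [hy, map_add, map_smul, hg1x, smul_eq_mul]
      intro h
      have h12 : (12 : k) ≠ 0 := by norm_num
      have h2 : 12 + t * g1 c = 0 := by
        rcases div_eq_zero_iff.1 h with h | h
        · exact h
        · exact absurd h h12
      by_cases hgc : g1 c = 0
      · rw [hgc, mul_zero, add_zero] at h2
        exact h12 h2
      · apply ht1
        rw [eq_div_iff hgc]
        linear_combination h2
    have hTT : Lop Lam x1 (gx y) * Lop Lam y g1 = 1 := by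
      rw [← hfac x1 hx1 y (gx y)]
      exact hL1 y htO
    obtain ⟨q, hq⟩ := square_scalar hnd hanti (sc_Lop hanti sym y g1) (sc_Lop hanti sym x1 (gx y))
      hTT hs
    have e : Lop Lam y g1 - (g1 y / 12) • (1 : End k B) = t • S c := by
      rw [Lop, add_sub_cancel_left, hy, map_add, LinearMap.add_apply, hLam1, zero_add, map_smul]
      rfl
    rw [e, smul_mul_smul_comm] at hq
    refine ⟨(t * t)⁻¹ * q, ?_⟩
    rw [mul_smul, ← hq, smul_smul, inv_mul_cancel₀ (mul_ne_zero ht0 ht0), one_smul]
  choose Q hQ using hsq
  have hpol : ∀ c c', S c * S c' + S c' * S c = (Q (c + c') - Q c - Q c') • (1 : End k B) := by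
    intro c c'
    rw [sub_smul, sub_smul, ← hQ, ← hQ, ← hQ, hSadd]
    noncomm_ring
  -- the bilinear form
  have htr : ∀ c c', (Q (c + c') - Q c - Q c') * 80 =
      2 * LinearMap.trace k B (S c * S c') := by
    intro c c'
    have h := congrArg (LinearMap.trace k B) (hpol c c')
    rw [map_smul, LinearMap.trace_one, hB, map_add, LinearMap.trace_mul_comm k (S c')] at h
    rw [two_mul, h]
    simp
  set sg : C → k := fun c => g1 c / 12 with hsg
  set ta : C → C → k := fun c c' => LinearMap.trace k B (S c * S c') / 80 with hta
  have h80 : (80 : k) ≠ 0 := by norm_num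
  have h12 : (12 : k) ≠ 0 := by norm_num
  have hta2 : ∀ c c', S c * S c' + S c' * S c = (2 * ta c c') • (1 : End k B) := by
    intro c c'
    rw [hpol]
    congr 1
    rw [hta]
    field_simp
    linear_combination htr c c'
  have hta1 : ∀ c, S c * S c = ta c c • (1 : End k B) := by
    intro c
    have h := hta2 c c
    rw [← two_smul k, mul_smul] at h
    exact smul_right_injective _ (two_ne_zero (α := k)) h
  let N : LinearMap.BilinForm k C := LinearMap.mk₂ k (fun c c' => sg c * sg c' - ta c c')
    (by
      intro c c' d
      simp only [hsg, hta, hSadd, map_add, add_mul]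
      ring)
    (by
      intro t c d
      simp only [hsg, hta, hSsmul, map_smul, smul_mul_assoc, smul_eq_mul]
      ring)
    (by
      intro c d d'
      simp only [hsg, hta, hSadd, map_add, mul_add]
      ring)
    (by
      intro t c d
      simp only [hsg, hta, hSsmul, map_smul, mul_smul_comm, smul_eq_mul]
      ring)
  have hN : ∀ c c', N c c' = sg c * sg c' - ta c c' := fun c c' => rfl
  have hNsymm : ∀ c c', N c c' = N c' c := by
    intro c c'
    rw [hN, hN, hta]
    simp only
    rw [LinearMap.trace_mul_comm k (S c)]
    ring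
  have hNs : N.IsSymm := ⟨fun c c' => hNsymm c c'⟩
  have hSx1 : S x1 = 0 := hLam1
  have hsx1 : sg x1 = 1 := by
    rw [hsg]
    simp only [hg1x]
    norm_num
  have hNx1 : ∀ c, N x1 c = g1 c / 12 := by
    intro c
    rw [hN, hsx1, one_mul, hta]
    simp only [hSx1, zero_mul, map_zero, zero_div, sub_zero]
    rfl
  have hNx11 : N x1 x1 ≠ 0 := by
    rw [hNx1, hg1x]
    norm_num
  -- the key relation
  have hkey : ∀ η ∈ Om, ∀ c, N η η • Lop Lam c (gx η) =
      (sg η • (1 : End k B) - S η) * (sg c • (1 : End k B) + S c) := by
    intro η hη c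
    have h1 := hfac η hη c g1
    have h2 : (sg η • (1 : End k B) - S η) * Lop Lam η g1 = N η η • (1 : End k B) := by
      have e : Lop Lam η g1 = sg η • (1 : End k B) + S η := rfl
      rw [e, hN, sub_smul, ← hta1, ← smul_smul, sub_mul, mul_add, mul_add, smul_one_mul,
        smul_one_mul, mul_smul_one]
      abel
    have e : Lop Lam c g1 = sg c • (1 : End k B) + S c := rfl
    rw [← e, h1, ← mul_assoc, h2, smul_one_mul]
  have hscS : ∀ c, sc om (S c) 0 := by
    intro c b b'
    have h1 := sym c g1 b b'
    have h2 := hanti b (Lam c g1 b')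
    have h3 : om (S c b) b' = om (Lam c g1 b) b' := rfl
    have h4 : om b (S c b') = om b (Lam c g1 b') := rfl
    rw [h3, h4, h2, ← h1]
    ring
  have hNne : ∀ η ∈ Om, N η η ≠ 0 := by
    intro η hη h0
    have h1 := hkey η hη x1
    rw [h0, zero_smul, hsx1, hSx1, add_zero, one_smul, mul_one] at h1
    have h2 : S η = sg η • (1 : End k B) := (sub_eq_zero.1 h1.symm).symm
    have h3 : sg η = 0 := by
      have ha : sc om (S η) (sg η) := by
        rw [h2]
        intro b b'
        simp only [LinearMap.smul_apply, Module.End.one_apply, map_smul, smul_eq_mul]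
        ring
      exact sc_unique hnd ha (hscS η)
    have h4 : Lop Lam η g1 = 0 := by
      have e : Lop Lam η g1 = sg η • (1 : End k B) + S η := rfl
      rw [e, h2, h3, zero_smul, add_zero]
    have h5 := hfac η hη x1 g1
    rw [h4, zero_mul, hL1 x1 hx1] at h5
    exact one_ne_zero h5
  have hgN : ∀ η ∈ Om, ∀ c, N η η * (gx η c / 12) = N η c := by
    intro η hη c
    have ha : sc om (N η η • Lop Lam c (gx η)) (N η η * (gx η c / 12)) := by
      intro b b'
      have h := sc_Lop hanti sym c (gx η) b b'
      simp only [LinearMap.smul_apply, map_smul, smul_eq_mul]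
      linear_combination (N η η) * h
    have hb : sc om (N η η • Lop Lam c (gx η)) (N η c) := by
      rw [hkey η hη c]
      intro b b'
      have e1 := hscS η b b'
      have e2 := hscS c b b'
      have e3 := hscS η (S c b) b'
      have e4 := hscS c b (S η b')
      have e5 := hscS η b (S c b')
      have e6 : om b (S c (S η b')) + om b (S η (S c b')) = 2 * ta η c * om b b' := by
        have h := congrArg (fun f : End k B => om b (f b')) (hta2 η c)
        simp only [LinearMap.add_apply, Module.End.mul_apply, LinearMap.smul_apply,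
          Module.End.one_apply, map_add, map_smul, smul_eq_mul] at h
        linear_combination h
      rw [hN]
      simp only [Module.End.mul_apply, LinearMap.sub_apply, LinearMap.add_apply,
        LinearMap.smul_apply, Module.End.one_apply, map_add, map_sub, map_smul, smul_eq_mul]
      linear_combination (-(sg c)) * e1 + (sg η) * e2 - e3 + e4 - e6
    exact sc_unique hnd ha hb
  -- polarisation
  have hE0 : ∀ η ∈ Om, Lam η (N η) = 0 := by
    intro η hη
    have h1 : N η = (N η η / 12) • gx η := by
      apply LinearMap.ext
      intro c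
      rw [← hgN η hη c, LinearMap.smul_apply, smul_eq_mul]
      ring
    rw [h1, map_smul, hgx2 η hη, smul_zero]
  have hE : ∀ c, Lam c (N c) = 0 := by
    intro c
    classical
    obtain ⟨t, ht, htO⟩ := hgood c {0}
    obtain ⟨u, hu, huO⟩ := hgood c {0, t}
    simp only [Finset.mem_insert, Finset.mem_singleton, not_or] at ht hu
    obtain ⟨hu0, hut⟩ := hu
    have hexp : ∀ t : k, Lam (x1 + t • c) (N (x1 + t • c)) =
        Lam x1 (N x1) + t • (Lam x1 (N c) + Lam c (N x1)) + (t * t) • Lam c (N c) := by
      intro t
      simp only [map_add, map_smul, LinearMap.add_apply, LinearMap.smul_apply, smul_add,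
        smul_smul]
      abel
    have h0 := hE0 x1 hx1
    have h1 := hE0 _ htO
    have h2 := hE0 _ huO
    rw [hexp, h0, zero_add] at h1 h2
    set X := Lam x1 (N c) + Lam c (N x1) with hX
    set Y := Lam c (N c) with hY
    have h1' : X + t • Y = 0 := by
      have : t • (X + t • Y) = 0 := by rw [smul_add, smul_smul]; exact h1
      exact (smul_eq_zero.1 this).resolve_left ht
    have h2' : X + u • Y = 0 := by
      have : u • (X + u • Y) = 0 := by rw [smul_add, smul_smul]; exact h2
      exact (smul_eq_zero.1 this).resolve_left hu0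
    have h3 : (u - t) • Y = 0 := by
      rw [sub_smul, sub_eq_zero]
      exact add_left_cancel (h2'.trans h1'.symm)
    exact (smul_eq_zero.1 h3).resolve_left (sub_ne_zero.2 hut)
  have hpolE : ∀ c c', Lam c (N c') + Lam c' (N c) = 0 := by
    intro c c'
    have h := hE (c + c')
    simp only [map_add, LinearMap.add_apply, hE c, hE c', zero_add, add_zero] at h
    rw [add_comm]
    exact h
  -- nondegeneracy
  have hrad : ∀ r, (∀ c, N r c = 0) → r = 0 := by
    intro r hr
    have hNr : N r = 0 := LinearMap.ext hr
    have hgr : g1 r = 0 := by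
      have h := hr x1
      rw [hNsymm, hNx1] at h
      rcases div_eq_zero_iff.1 h with h | h
      · exact h
      · exact absurd h h12
    have hSr : S r = 0 := by
      have h := hpolE r x1
      have h2 : N x1 = (1 / 12 : k) • g1 := by
        apply LinearMap.ext
        intro c
        rw [hNx1, LinearMap.smul_apply, smul_eq_mul]
        ring
      rw [hNr, map_zero, add_zero, h2, map_smul] at h
      exact (smul_eq_zero.1 h).resolve_left (by norm_num)
    have hL0 : Lop Lam r g1 = 0 := by
      have e : Lop Lam r g1 = (g1 r / 12) • (1 : End k B) + S r := rfl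
      rw [e, hgr, hSr, zero_div, zero_smul, add_zero]
    have hg0 : ∀ g : Dual k C, g r = 0 := by
      intro g
      have h := hfac x1 hx1 r g
      rw [← hg1, hL0, mul_zero] at h
      have h1 := sc_Lop hanti sym r g
      rw [h] at h1
      have h2 : sc om (0 : End k B) 0 := by
        intro b b'
        simp
      have h3 := sc_unique hnd h1 h2
      rcases div_eq_zero_iff.1 h3 with h | h
      · exact h
      · exact absurd h h12
    exact (Module.forall_dual_apply_eq_zero_iff k r).1 hg0
  have hNn : N.Nondegenerate :=
    ⟨fun r hr => hrad r hr, fun r hr => hrad r (fun c => (hNsymm r c).trans (hr c))⟩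
  have hfin := clifford_end hC N hNs hNn x1 hNx11 S (by
    intro c c' hc hc'
    rw [hta2, hN]
    have h1 : sg c = 0 := (hNx1 c).symm.trans hc
    rw [h1]
    congr 1
    ring)
  rw [hB] at hfin
  omega

end Main

end Pool.Agent.Licci.Six
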